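import Pool.Agent.Helper158.Stall.Del

set_option autoImplicit false

namespace Pool.Agent.Helper158.Stall

open FreeGroup

/-- all ways of deleting exactly the letters of `P` (with multiplicity) from `L` -/
def dels {β : Type*} [DecidableEq β] : List β → List β → List (List β)
  | [], [] => [[]]
  | [], _ :: _ => []
  | x :: L, P => (dels L P).map (x :: ·) ++ (if x ∈ P then dels L (P.erase x) else [])

theorem mem_dels {β : Type*} [DecidableEq β] (L : List β) :
    ∀ (L' P : List β), L'.Sublist L → (L : Multiset β) = (L' : Multiset β) + (P : Multiset β) →
      L' ∈ dels L P := by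
  induction L with
  | nil =>
    intro L' P hs hm
    have h1 : L' = [] := List.sublist_nil.1 hs
    subst h1
    have h2 : P = [] := by
      have : (P : Multiset β) = 0 := by simpa using hm.symm
      simpa using this
    subst h2
    simp [dels]
  | cons x L ih =>
    intro L' P hs hm
    rw [dels, List.mem_append]
    cases hs with
    | cons _ hs =>
      right
      have hx : x ∈ P := by
        -- count comparison
        obtain ⟨Z, hZ⟩ : ∃ Z : Multiset β, (L : Multiset β) = (L' : Multiset β) + Z :=
          Multiset.le_iff_exists_add.1 (by simpa using hs.subperm)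
        have : (P : Multiset β) = x ::ₘ Z := by
          apply add_left_cancel (a := (L' : Multiset β))
          rw [← hm, ← Multiset.cons_coe, hZ]
          simp
        have h3 : x ∈ (P : Multiset β) := by rw [this]; exact Multiset.mem_cons_self _ _
        simpa using h3
      rw [if_pos hx]
      apply ih _ _ hs
      have : (P : Multiset β) = x ::ₘ ((P.erase x : List β) : Multiset β) := by
        rw [← Multiset.coe_erase, Multiset.cons_erase (by simpa using hx)]
      rw [this, ← Multiset.cons_coe, Multiset.add_cons] at hm
      exact (Multiset.cons_inj_right x).1 hm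
    | cons_cons _ hs =>
      rename_i L''
      left
      apply List.mem_map_of_mem
      apply ih _ _ hs
      rw [← Multiset.cons_coe, ← Multiset.cons_coe, Multiset.cons_add] at hm
      exact (Multiset.cons_inj_right x).1 hm

/-- the word `u⁻¹` -/
def aw : List (Fin 2 × Bool) := [(0, false), (1, false), (0, true), (1, true), (1, true), (0, false), (1, false), (0, true), (1, true), (0, false), (1, false), (0, true), (0, true), (0, true), (0, true), (1, true), (1, true), (0, false), (1, true), (1, true)]

def P0 : List (Fin 2 × Bool) := [(0, true), (0, true), (0, true), (0, false), (1, true), (1, true), (1, true), (1, true)]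

def P1 : List (Fin 2 × Bool) := [(0, true), (0, true), (1, true), (1, true), (1, true), (1, true)]

theorem chk0 : (dels aw P0).all (fun L => !(reduce L).isEmpty) = true := by
  decide +kernel

theorem chk1 : (dels aw P1).all (fun L => !(reduce L).isEmpty) = true := by
  decide +kernel


theorem count_bar (N : Multiset (Fin 2 × Bool)) (x : Fin 2 × Bool) :
    (N.map bar).count x = N.count (bar x) := by
  have hinj : Function.Injective (bar : Fin 2 × Bool → Fin 2 × Bool) := by
    intro a b h
    have := congrArg bar h
    rwa [bar_bar, bar_bar] at this
  conv_lhs => rw [← bar_bar x]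
  exact Multiset.count_map_eq_count' _ _ hinj _

theorem not_good : ¬ Good (P0 : Multiset (Fin 2 × Bool)) aw := by
  rintro ⟨L', hs, h1, N, hN⟩
  obtain ⟨D, hD⟩ : ∃ Z : Multiset (Fin 2 × Bool), (aw : Multiset (Fin 2 × Bool)) = (L' : Multiset _) + Z :=
    Multiset.le_iff_exists_add.1 (by simpa using hs.subperm)
  rw [hD, add_assoc] at hN
  have hM := add_left_cancel hN
  have cnt : ∀ x : Fin 2 × Bool, D.count x + (N.count x + N.count (bar x)) = (P0 : Multiset (Fin 2 × Bool)).count x := by
    intro x
    have := congrArg (Multiset.count x) hM
    rw [Multiset.count_add, Multiset.count_add, count_bar] at this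
    exact this
  have c1 := cnt (0, true)
  have c2 := cnt (0, false)
  have c3 := cnt (1, true)
  have c4 := cnt (1, false)
  have e1 : (P0 : Multiset (Fin 2 × Bool)).count (0, true) = 3 := by decide
  have e2 : (P0 : Multiset (Fin 2 × Bool)).count (0, false) = 1 := by decide
  have e3 : (P0 : Multiset (Fin 2 × Bool)).count (1, true) = 4 := by decide
  have e4 : (P0 : Multiset (Fin 2 × Bool)).count (1, false) = 0 := by decide
  rw [e1] at c1
  rw [e2] at c2
  rw [e3] at c3
  rw [e4] at c4
  simp only [bar, Bool.not_true, Bool.not_false] at c1 c2 c3 c4
  have hred : reduce L' = [] := by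
    rw [← toWord_mk, h1, toWord_one]
  have hcase : D = (P0 : Multiset (Fin 2 × Bool)) ∨ D = (P1 : Multiset (Fin 2 × Bool)) := by
    have f1 : (P1 : Multiset (Fin 2 × Bool)).count (0, true) = 2 := by decide
    have f2 : (P1 : Multiset (Fin 2 × Bool)).count (0, false) = 0 := by decide
    have f3 : (P1 : Multiset (Fin 2 × Bool)).count (1, true) = 4 := by decide
    have f4 : (P1 : Multiset (Fin 2 × Bool)).count (1, false) = 0 := by decide
    have hk : N.count (0, true) + N.count (0, false) = 0 ∨ N.count (0, true) + N.count (0, false) = 1 := by
      omega
    rcases hk with hk | hk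
    · left
      ext x
      have : x = (0, true) ∨ x = (0, false) ∨ x = (1, true) ∨ x = (1, false) := by
        revert x; decide
      rcases this with rfl | rfl | rfl | rfl <;> omega
    · right
      ext x
      have : x = (0, true) ∨ x = (0, false) ∨ x = (1, true) ∨ x = (1, false) := by
        revert x; decide
      rcases this with rfl | rfl | rfl | rfl <;> omega
  rcases hcase with rfl | rfl
  · have hm := mem_dels aw L' P0 hs hD
    have := List.all_eq_true.1 chk0 L' hm
    simp [hred] at this
  · have hm := mem_dels aw L' P1 hs hD
    have := List.all_eq_true.1 chk1 L' hm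
    simp [hred] at this

end Pool.Agent.Helper158.Stall
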