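import Mathlib

/-!
Deletion lemma in free groups: if the element of a word `L` is a product of conjugates of
letters (with multiset of letters `M`), then one can delete letters from `L` so that the rest is
trivial in the free group and the deleted letters are, up to cancelling pairs, the letters in `M`.
-/

set_option autoImplicit false

namespace Pool.Agent.Helper158.Stall

open FreeGroup

universe u
variable {α : Type u}

/-- the inverse letter -/
def bar (x : α × Bool) : α × Bool := (x.1, !x.2)

theorem bar_bar (x : α × Bool) : bar (bar x) = x := by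
  obtain ⟨a, b⟩ := x
  simp [bar]

theorem mk_ins (L₁ L₂ : List (α × Bool)) (x : α × Bool) :
    mk (L₁ ++ x :: bar x :: L₂) = mk (L₁ ++ L₂) := by
  obtain ⟨a, b⟩ := x
  exact Quot.sound Red.Step.not

theorem mk_app (L₁ L₂ : List (α × Bool)) : mk (L₁ ++ L₂) = mk L₁ * mk L₂ := mul_mk.symm

theorem mk_cons (x : α × Bool) (L₂ : List (α × Bool)) : mk (x :: L₂) = mk [x] * mk L₂ := by
  rw [mul_mk]; rfl

theorem mk_bar (x : α × Bool) : mk [bar x] = (mk [x])⁻¹ := by
  rw [inv_mk]; rfl

/-- a word equal to a single letter `a` contains that letter between two trivial words -/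
theorem split_single {V : List (α × Bool)} {a : α × Bool} (h : Red V [a]) :
    ∃ V1 V2, V = V1 ++ a :: V2 ∧ mk V1 = 1 ∧ mk V2 = 1 := by
  induction h using Relation.ReflTransGen.head_induction_on with
  | refl => exact ⟨[], [], rfl, rfl, rfl⟩
  | head hstep _ ih =>
    obtain ⟨V1, V2, hV, h1, h2⟩ := ih
    cases hstep with
    | @not L₁ L₂ x b =>
      rcases List.append_eq_append_iff.1 hV with ⟨c, hc1, hc2⟩ | ⟨c, hc1, hc2⟩
      · refine ⟨L₁ ++ (x, b) :: (x, !b) :: c, V2, ?_, ?_, h2⟩
        · rw [hc2]; simp
        · rw [show (x, !b) = bar (x, b) from rfl, mk_ins, ← hc1, h1]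
      · cases c with
        | nil =>
          simp only [List.append_nil, List.nil_append] at hc1 hc2
          refine ⟨V1 ++ (x, b) :: (x, !b) :: [], V2, ?_, ?_, h2⟩
          · rw [hc1, ← hc2]; simp
          · rw [show (x, !b) = bar (x, b) from rfl, mk_ins, List.append_nil, h1]
        | cons y c =>
          simp only [List.cons_append, List.cons.injEq] at hc2
          obtain ⟨rfl, hc2⟩ := hc2
          refine ⟨V1, c ++ (x, b) :: (x, !b) :: L₂, ?_, h1, ?_⟩
          · rw [hc1]; simp
          · rw [show (x, !b) = bar (x, b) from rfl, mk_ins, ← hc2, h2]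

theorem split_single' {V : List (α × Bool)} {a : α × Bool} (h : mk V = mk [a]) :
    ∃ V1 V2, V = V1 ++ a :: V2 ∧ mk V1 = 1 ∧ mk V2 = 1 := by
  obtain ⟨c, h1, h2⟩ := Red.exact.1 h
  rw [Red.singleton_iff] at h2
  subst h2
  exact split_single h1

/-- matching lemma: in a trivial word each letter is matched with an inverse letter -/
theorem matching {X Y : List (α × Bool)} {x : α × Bool} (h : mk (X ++ x :: Y) = 1) :
    ∃ L'' : List (α × Bool), L''.Sublist (X ++ Y) ∧ mk L'' = 1 ∧
      (L'' : Multiset (α × Bool)) + {bar x} = (X : Multiset (α × Bool)) + (Y : Multiset (α × Bool)) := by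
  have h1 : mk (Y ++ X) = mk [bar x] := by
    rw [mk_app, mk_cons] at h
    rw [mk_app, mk_bar]
    have : mk [x] * (mk Y * mk X) = 1 := by
      have h3 : mk X * (mk [x] * mk Y) * mk X * (mk X)⁻¹ = 1 := by rw [h]; group
      have h4 : (mk X)⁻¹ * (mk X * (mk [x] * mk Y)) * mk X = 1 := by rw [h]; group
      calc mk [x] * (mk Y * mk X) = (mk X)⁻¹ * (mk X * (mk [x] * mk Y)) * mk X := by group
        _ = 1 := h4
    exact eq_inv_of_mul_eq_one_right this
  obtain ⟨V1, V2, hV, e1, e2⟩ := split_single' h1
  rcases List.append_eq_append_iff.1 hV with ⟨c, hc1, hc2⟩ | ⟨c, hc1, hc2⟩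
  · -- V1 = Y ++ c, X = c ++ bar x :: V2
    refine ⟨c ++ V2 ++ Y, ?_, ?_, ?_⟩
    · rw [hc2]
      apply List.Sublist.append_right
      apply List.Sublist.append_left
      exact List.sublist_cons_self _ _
    · rw [hc1, mk_app] at e1
      rw [mk_app, mk_app, e2, mul_one]
      have : mk c = (mk Y)⁻¹ := (eq_inv_of_mul_eq_one_right e1)
      rw [this]; group
    · rw [hc2]
      simp only [← Multiset.coe_add, ← Multiset.cons_coe, ← Multiset.singleton_add]
      abel
  · cases c with
    | nil =>
      simp only [List.append_nil, List.nil_append] at hc1 hc2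
      refine ⟨V2 ++ Y, ?_, ?_, ?_⟩
      · rw [← hc2]
        apply List.Sublist.append_right
        exact List.sublist_cons_self _ _
      · rw [mk_app, e2, hc1, e1, one_mul]
      · rw [← hc2]
        simp only [← Multiset.coe_add, ← Multiset.cons_coe, ← Multiset.singleton_add]
        abel
    | cons y c =>
      simp only [List.cons_append, List.cons.injEq] at hc2
      obtain ⟨rfl, hc2⟩ := hc2
      refine ⟨X ++ (V1 ++ c), ?_, ?_, ?_⟩
      · rw [hc1]
        apply List.Sublist.append_left
        apply List.Sublist.append_left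
        exact List.sublist_cons_self _ _
      · rw [hc2, mk_app] at e2
        rw [mk_app, mk_app, e1, one_mul]
        have : mk X = (mk c)⁻¹ := (eq_inv_of_mul_eq_one_right e2)
        rw [this]; group
      · rw [hc1]
        simp only [← Multiset.coe_add, ← Multiset.cons_coe, ← Multiset.singleton_add]
        abel

/-- `Good M L`: letters can be deleted from `L` leaving a trivial word, the multiset of deleted
letters being `M` up to cancelling pairs. -/
def Good (M : Multiset (α × Bool)) (L : List (α × Bool)) : Prop :=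
  ∃ L' : List (α × Bool), L'.Sublist L ∧ mk L' = 1 ∧
    ∃ N : Multiset (α × Bool),
      (L : Multiset (α × Bool)) + (N + N.map bar) = (L' : Multiset (α × Bool)) + M

theorem Good.expand {M : Multiset (α × Bool)} {X Y : List (α × Bool)} {x : α × Bool}
    (h : Good M (X ++ Y)) : Good M (X ++ x :: bar x :: Y) := by
  obtain ⟨L', hs, h1, N, hN⟩ := h
  obtain ⟨X', Y', rfl, hX, hY⟩ := List.sublist_append_iff.1 hs
  refine ⟨X' ++ x :: bar x :: Y', ?_, ?_, N, ?_⟩
  · exact hX.append ((hY.cons_cons _).cons_cons _)
  · rw [mk_ins, h1]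
  · simp only [← Multiset.coe_add, ← Multiset.cons_coe, ← Multiset.singleton_add] at hN ⊢
    calc (X : Multiset (α × Bool)) + ({x} + ({bar x} + (Y : Multiset (α × Bool)))) + (N + N.map bar)
        = ({x} + {bar x}) + ((X : Multiset (α × Bool)) + (Y : Multiset (α × Bool)) + (N + N.map bar)) := by abel
      _ = ({x} + {bar x}) + ((X' : Multiset (α × Bool)) + (Y' : Multiset (α × Bool)) + M) := by rw [hN]
      _ = _ := by abel

theorem Good.contract {M : Multiset (α × Bool)} {X Y : List (α × Bool)} {x : α × Bool}
    (h : Good M (X ++ x :: bar x :: Y)) : Good M (X ++ Y) := by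
  obtain ⟨L', hs, h1, N, hN⟩ := h
  obtain ⟨X', Z, rfl, hX, hZ⟩ := List.sublist_append_iff.1 hs
  have hZ' : ∃ Z' Y', Z = Z' ++ Y' ∧ Z'.Sublist [x, bar x] ∧ Y'.Sublist Y :=
    List.sublist_append_iff.1 (show Z.Sublist ([x, bar x] ++ Y) from hZ)
  obtain ⟨Z', Y', rfl, hZ', hY⟩ := hZ'
  have hcases : Z' = [] ∨ Z' = [x] ∨ Z' = [bar x] ∨ Z' = [x, bar x] := by
    have := List.mem_sublists.2 hZ'
    simp [List.sublists_cons] at this
    tauto
  simp only [← Multiset.coe_add, ← Multiset.cons_coe, ← Multiset.singleton_add] at hN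
  rcases hcases with rfl | rfl | rfl | rfl
  · -- both deleted
    refine ⟨X' ++ Y', hX.append hY, h1, x ::ₘ N, ?_⟩
    simp only [← Multiset.coe_add, ← Multiset.cons_coe, ← Multiset.singleton_add,
      Multiset.map_add, Multiset.map_singleton] at hN ⊢
    calc (X : Multiset (α × Bool)) + (Y : Multiset (α × Bool)) + ({x} + N + ({bar x} + N.map bar))
        = (X : Multiset (α × Bool)) + ({x} + ({bar x} + (Y : Multiset (α × Bool)))) + (N + N.map bar) := by abel
      _ = _ := by rw [hN]; simp
  · -- x kept, bar x deleted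
    rw [show X' ++ ([x] ++ Y') = X' ++ x :: Y' from rfl] at h1
    obtain ⟨L'', hs'', h1'', hc⟩ := matching h1
    refine ⟨L'', hs''.trans (hX.append hY), h1'', N, ?_⟩
    have key : (X : Multiset (α × Bool)) + (Y : Multiset (α × Bool)) + (N + N.map bar) + ({x} + {bar x})
        = (L'' : Multiset (α × Bool)) + M + ({x} + {bar x}) := by
      calc (X : Multiset (α × Bool)) + (Y : Multiset (α × Bool)) + (N + N.map bar) + ({x} + {bar x})
          = (X : Multiset (α × Bool)) + ({x} + ({bar x} + (Y : Multiset (α × Bool)))) + (N + N.map bar) := by abel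
        _ = (X' : Multiset (α × Bool)) + ({x} + (Y' : Multiset (α × Bool))) + M := by
            rw [hN]; simp [← Multiset.singleton_add]
        _ = {x} + ((X' : Multiset (α × Bool)) + (Y' : Multiset (α × Bool))) + M := by abel
        _ = _ := by rw [← hc]; abel
    rw [← Multiset.coe_add]
    exact add_right_cancel key
  · -- bar x kept, x deleted
    rw [show X' ++ ([bar x] ++ Y') = X' ++ bar x :: Y' from rfl] at h1
    obtain ⟨L'', hs'', h1'', hc⟩ := matching h1
    rw [bar_bar] at hc
    refine ⟨L'', hs''.trans (hX.append hY), h1'', N, ?_⟩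
    have key : (X : Multiset (α × Bool)) + (Y : Multiset (α × Bool)) + (N + N.map bar) + ({x} + {bar x})
        = (L'' : Multiset (α × Bool)) + M + ({x} + {bar x}) := by
      calc (X : Multiset (α × Bool)) + (Y : Multiset (α × Bool)) + (N + N.map bar) + ({x} + {bar x})
          = (X : Multiset (α × Bool)) + ({x} + ({bar x} + (Y : Multiset (α × Bool)))) + (N + N.map bar) := by abel
        _ = (X' : Multiset (α × Bool)) + ({bar x} + (Y' : Multiset (α × Bool))) + M := by
            rw [hN]; simp [← Multiset.singleton_add]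
        _ = {bar x} + ((X' : Multiset (α × Bool)) + (Y' : Multiset (α × Bool))) + M := by abel
        _ = _ := by rw [← hc]; abel
    rw [← Multiset.coe_add]
    exact add_right_cancel key
  · refine ⟨X' ++ Y', hX.append hY, ?_, N, ?_⟩
    · rw [← h1]; exact (mk_ins X' Y' x).symm
    · rw [← Multiset.coe_add, ← Multiset.coe_add]
      have key : (X : Multiset (α × Bool)) + (Y : Multiset (α × Bool)) + (N + N.map bar) + ({x} + {bar x})
          = (X' : Multiset (α × Bool)) + (Y' : Multiset (α × Bool)) + M + ({x} + {bar x}) := by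
        calc (X : Multiset (α × Bool)) + (Y : Multiset (α × Bool)) + (N + N.map bar) + ({x} + {bar x})
            = (X : Multiset (α × Bool)) + ({x} + ({bar x} + (Y : Multiset (α × Bool)))) + (N + N.map bar) := by abel
          _ = (X' : Multiset (α × Bool)) + (({x} + {bar x}) + (Y' : Multiset (α × Bool))) + M := by
              rw [hN]; rfl
          _ = _ := by abel
      exact add_right_cancel key

theorem Good.step {M : Multiset (α × Bool)} {L₁ L₂ : List (α × Bool)} (h : Red.Step L₁ L₂) :
    Good M L₁ ↔ Good M L₂ := by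
  cases h with
  | @not X Y x b =>
    exact ⟨fun h => Good.contract (x := (x, b)) h, fun h => Good.expand (x := (x, b)) h⟩

theorem Good.red {M : Multiset (α × Bool)} {L₁ L₂ : List (α × Bool)} (h : Red L₁ L₂) :
    Good M L₁ ↔ Good M L₂ := by
  induction h with
  | refl => exact Iff.rfl
  | tail _ h2 ih => exact ih.trans (Good.step h2)

theorem Good.congr {M : Multiset (α × Bool)} {L₁ L₂ : List (α × Bool)} (h : mk L₁ = mk L₂) :
    Good M L₁ ↔ Good M L₂ := by
  obtain ⟨c, h1, h2⟩ := Red.exact.1 h
  exact (Good.red h1).trans (Good.red h2).symm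

theorem Good.nil : Good (0 : Multiset (α × Bool)) [] :=
  ⟨[], List.Sublist.slnil, rfl, 0, by simp⟩

theorem Good.append {M₁ M₂ : Multiset (α × Bool)} {L₁ L₂ : List (α × Bool)}
    (h₁ : Good M₁ L₁) (h₂ : Good M₂ L₂) : Good (M₁ + M₂) (L₁ ++ L₂) := by
  obtain ⟨A, hA, a1, N, hN⟩ := h₁
  obtain ⟨B, hB, b1, K, hK⟩ := h₂
  refine ⟨A ++ B, hA.append hB, by rw [mk_app, a1, b1, one_mul], N + K, ?_⟩
  rw [← Multiset.coe_add, ← Multiset.coe_add, Multiset.map_add]
  calc (L₁ : Multiset (α × Bool)) + (L₂ : Multiset (α × Bool)) + (N + K + (N.map bar + K.map bar))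
      = ((L₁ : Multiset (α × Bool)) + (N + N.map bar)) + ((L₂ : Multiset (α × Bool)) + (K + K.map bar)) := by abel
    _ = _ := by rw [hN, hK]; abel

/-- the words `h x h⁻¹` -/
theorem Good.conj (H : List (α × Bool)) (x : α × Bool) :
    Good {x} (H ++ [x] ++ invRev H) := by
  refine ⟨H ++ invRev H, ?_, ?_, 0, ?_⟩
  · apply List.Sublist.append_right
    exact List.sublist_append_left _ _
  · rw [mk_app, ← inv_mk, mul_inv_cancel]
  · simp only [← Multiset.coe_add, Multiset.map_zero, add_zero, Multiset.coe_singleton]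
    abel

theorem Good.conj_one (H : List (α × Bool)) :
    Good 0 (H ++ invRev H) := by
  refine ⟨H ++ invRev H, List.Sublist.refl _, ?_, 0, ?_⟩
  · rw [mk_app, ← inv_mk, mul_inv_cancel]
  · simp

/-- optional letters -/
def optW (o : Option (α × Bool)) : List (α × Bool) := o.toList

def optM (o : Option (α × Bool)) : Multiset (α × Bool) := (o.toList : Multiset (α × Bool))

theorem Good.conj_opt (H : List (α × Bool)) (o : Option (α × Bool)) :
    Good (optM o) (H ++ optW o ++ invRev H) := by
  cases o with
  | none =>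
    have := Good.conj_one H
    simpa [optM, optW] using this
  | some x =>
    have := Good.conj H x
    simpa [optM, optW] using this

/-- **Deletion lemma.** -/
theorem deletion {L : List (α × Bool)} (T : List (FreeGroup α × Option (α × Bool)))
    (h : mk L = (T.map (fun p => p.1 * mk (optW p.2) * p.1⁻¹)).prod) :
    Good (T.map (fun p => optM p.2)).sum L := by
  suffices H : ∀ T : List (FreeGroup α × Option (α × Bool)), ∃ W : List (α × Bool),
      mk W = (T.map (fun p => p.1 * mk (optW p.2) * p.1⁻¹)).prod ∧
      Good (T.map (fun p => optM p.2)).sum W by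
    obtain ⟨W, hW, hG⟩ := H T
    exact (Good.congr (hW.trans h.symm)).1 hG
  intro T
  induction T with
  | nil => exact ⟨[], rfl, Good.nil⟩
  | cons p T ih =>
    obtain ⟨W, hW, hG⟩ := ih
    obtain ⟨H, hH⟩ := Quot.exists_rep p.1
    have hH' : mk H = p.1 := hH
    refine ⟨(H ++ optW p.2 ++ invRev H) ++ W, ?_, ?_⟩
    · rw [mk_app, hW, mk_app, mk_app, ← inv_mk, hH']
      simp
    · rw [List.map_cons, List.sum_cons]
      exact (Good.conj_opt H p.2).append hG

end Pool.Agent.Helper158.Stall
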