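import Pool.Agent.Helper158.Stall.Chk

set_option autoImplicit false
open scoped TensorProduct

namespace Pool.Agent.Helper158.Stall

open FreeGroup hiding map_mul map_inv map_one

/-- the word `t t b t⁻¹ c`; the letters `b, c, t` are numbered `0, 1, 2` -/
def W : List (Fin 3 × Bool) := [(2, true), (2, true), (0, true), (2, false), (1, true)]

/-- words in `b, c` as words in `b, c, t` -/
def emb (L : List (Fin 2 × Bool)) : List (Fin 3 × Bool) := L.map (fun x => (x.1.castSucc, x.2))

/-- the conjugated elements: a single letter, or `w`, or `w⁻¹` -/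
def item : Option (Fin 2 × Bool) × Bool → List (Fin 3 × Bool)
  | (some x, _) => emb [x]
  | (none, true) => W
  | (none, false) => invRev W

/-- the 22 conjugated elements with the conjugating words -/
def data : List ((Option (Fin 2 × Bool) × Bool) × List (Fin 3 × Bool)) := [
  ((some (1, true), true), [(0, false), (1, false), (0, true), (1, true), (1, true), (0, false), (1, false), (0, true), (1, true), (0, false), (1, false), (0, true), (0, true), (0, true), (0, true), (1, true), (1, true), (2, false)]),
  ((none, false), [(0, false), (1, false), (0, true), (1, true), (1, true), (0, false), (1, false), (0, true), (1, true), (0, false), (1, false), (0, true), (0, true), (0, true), (0, true), (1, true), (1, true), (2, false)]),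
  ((none, true), [(0, false), (1, false), (0, true), (1, true), (1, true), (0, false), (1, false), (0, true), (1, true), (0, false), (1, false), (0, true), (0, true), (0, true), (0, true), (1, true), (1, true), (2, true), (2, true), (0, true), (2, false), (1, true)]),
  ((none, true), [(0, false), (1, false), (0, true), (1, true), (1, true), (0, false), (1, false), (0, true), (1, true), (0, false), (1, false), (0, true), (0, true), (0, true), (0, true), (1, true), (2, true), (2, true), (0, true), (2, false), (1, true)]),
  ((some (0, false), true), [(0, false), (1, false), (0, true), (1, true), (1, true), (0, false), (1, false), (0, true), (1, true), (0, false), (1, false), (0, true), (0, true), (0, true), (0, true), (2, true)]),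
  ((none, true), [(0, false), (1, false), (0, true), (1, true), (1, true), (0, false), (1, false), (0, true), (1, true), (0, false), (1, false), (0, true), (0, true), (0, true), (2, false), (1, true)]),
  ((none, true), [(0, false), (1, false), (0, true), (1, true), (1, true), (0, false), (1, false), (0, true), (1, true), (0, false), (1, false), (0, true), (0, true), (2, false), (1, true)]),
  ((none, true), [(0, false), (1, false), (0, true), (1, true), (1, true), (0, false), (1, false), (0, true), (1, true), (0, false), (1, false), (0, true), (2, false), (1, true)]),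
  ((none, false), [(0, false), (1, false), (0, true), (1, true), (1, true), (0, false), (1, false), (0, true), (1, true), (0, false), (1, false), (2, false)]),
  ((some (0, true), true), [(0, false), (1, false), (0, true), (1, true), (1, true), (0, false), (1, false), (0, true), (1, true), (0, false), (1, false), (2, true)]),
  ((none, false), [(0, false), (1, false), (0, true), (1, true), (1, true), (0, false), (1, false), (0, true), (1, true), (0, false), (2, false), (2, false)]),
  ((some (1, true), true), [(0, false), (1, false), (0, true), (1, true), (1, true), (0, false), (1, false), (0, true), (1, true), (2, false)]),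
  ((none, true), [(0, false), (1, false), (0, true), (1, true), (1, true), (0, false), (1, false), (0, true), (2, false), (1, true)]),
  ((none, false), [(0, false), (1, false), (0, true), (1, true), (1, true), (0, false), (1, false), (2, false)]),
  ((some (0, true), true), [(0, false), (1, false), (0, true), (1, true), (1, true), (0, false), (1, false), (2, true)]),
  ((none, false), [(0, false), (1, false), (0, true), (1, true), (1, true), (0, false), (2, false), (2, false)]),
  ((some (1, true), true), [(0, false), (1, false), (0, true), (1, true), (1, true), (2, false)]),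
  ((none, true), [(0, false), (1, false), (0, true), (2, false), (1, true)]),
  ((none, false), [(0, false), (1, false), (2, false)]),
  ((some (0, true), true), [(0, false), (1, false), (2, true)]),
  ((none, false), [(0, false), (2, false), (2, false)]),
  ((some (1, true), true), [(2, false)])]


theorem prod_words (D : List ((Option (Fin 2 × Bool) × Bool) × List (Fin 3 × Bool))) :
    (D.map (fun p => mk p.2 * mk (item p.1) * (mk p.2)⁻¹)).prod =
      mk ((D.map (fun p => p.2 ++ item p.1 ++ invRev p.2)).flatten) := by
  induction D with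
  | nil => rfl
  | cons p D ih =>
    rw [List.map_cons, List.prod_cons, ih, List.map_cons, List.flatten_cons, mk_app, mk_app,
      mk_app, inv_mk]

theorem ident_words : reduce (emb aw) =
    reduce ((data.map (fun p => p.2 ++ item p.1 ++ invRev p.2)).flatten) := by
  decide +kernel

/-- the identity in the free group on `b, c, t` -/
theorem identity : mk (emb aw) =
    (data.map (fun p => mk p.2 * mk (item p.1) * (mk p.2)⁻¹)).prod := by
  rw [prod_words]
  exact reduce.exact ident_words

/-- the subgroup generated by `b`, `c` and `w` -/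
def S : Subgroup (FreeGroup (Fin 3)) := Subgroup.closure {of 0, of 1, mk W}

theorem b_mem : (of 0 : FreeGroup (Fin 3)) ∈ S := Subgroup.subset_closure (by simp)
theorem c_mem : (of 1 : FreeGroup (Fin 3)) ∈ S := Subgroup.subset_closure (by simp)
theorem w_mem : (mk W : FreeGroup (Fin 3)) ∈ S := Subgroup.subset_closure (by simp)

theorem letter_mem (x : Fin 2 × Bool) : (mk (emb [x]) : FreeGroup (Fin 3)) ∈ S := by
  obtain ⟨a, b⟩ := x
  have key : (mk [(a.castSucc, true)] : FreeGroup (Fin 3)) ∈ S := by
    fin_cases a
    · exact b_mem
    · exact c_mem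
  cases b with
  | true => exact key
  | false =>
    have : (mk [(a.castSucc, false)] : FreeGroup (Fin 3)) = (mk [(a.castSucc, true)])⁻¹ := by
      rw [inv_mk]; rfl
    show (mk [(a.castSucc, false)] : FreeGroup (Fin 3)) ∈ S
    rw [this]
    exact S.inv_mem key

theorem emb_mem (L : List (Fin 2 × Bool)) : (mk (emb L) : FreeGroup (Fin 3)) ∈ S := by
  induction L with
  | nil => exact S.one_mem
  | cons x L ih =>
    have : (mk (emb (x :: L)) : FreeGroup (Fin 3)) = mk (emb [x]) * mk (emb L) := by
      rw [mul_mk]; rfl
    rw [this]
    exact S.mul_mem (letter_mem x) ih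

theorem item_mem (o : Option (Fin 2 × Bool) × Bool) :
    (mk (item o) : FreeGroup (Fin 3)) ∈ S := by
  obtain ⟨o, s⟩ := o
  cases o with
  | some x => exact letter_mem x
  | none =>
    cases s with
    | true => exact w_mem
    | false =>
      have : (mk (invRev W) : FreeGroup (Fin 3)) = (mk W)⁻¹ := by rw [inv_mk]
      show (mk (invRev W) : FreeGroup (Fin 3)) ∈ S
      rw [this]
      exact S.inv_mem w_mem

/-! ### the map on homology -/

theorem bij_of_inverse {A B : Type} [CommGroup A] [CommGroup B] (f : A →* B) (g : B →* A)
    (h1 : ∀ x, g (f x) = x) (h2 : ∀ y, f (g y) = y) (M : Type) [AddCommGroup M] [Module ℤ M] :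
    Function.Bijective (LinearMap.rTensor M
      (AddMonoidHom.toIntLinearMap (MonoidHom.toAdditive f))) := by
  set φ := AddMonoidHom.toIntLinearMap (MonoidHom.toAdditive f) with hφ
  set ψ := AddMonoidHom.toIntLinearMap (MonoidHom.toAdditive g) with hψ
  have e1 : ψ ∘ₗ φ = LinearMap.id := by
    apply LinearMap.ext
    intro x
    exact congrArg Additive.ofMul (h1 x.toMul)
  have e2 : φ ∘ₗ ψ = LinearMap.id := by
    apply LinearMap.ext
    intro x
    exact congrArg Additive.ofMul (h2 x.toMul)
  constructor
  · apply Function.LeftInverse.injective (g := LinearMap.rTensor M ψ)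
    intro x
    have := congrArg (fun F => F x) (LinearMap.rTensor_comp M ψ φ)
    rw [e1, LinearMap.rTensor_id] at this
    exact this.symm
  · apply Function.RightInverse.surjective (g := LinearMap.rTensor M ψ)
    intro x
    have := congrArg (fun F => F x) (LinearMap.rTensor_comp M φ ψ)
    rw [e2, LinearMap.rTensor_id] at this
    exact this.symm

/-- the classes of the generators in `S^ab` -/
noncomputable def gens : Fin 3 → Abelianization S :=
  ![Abelianization.of ⟨of 0, b_mem⟩, Abelianization.of ⟨of 1, c_mem⟩,
    Abelianization.of ⟨mk W, w_mem⟩ * (Abelianization.of ⟨of 0, b_mem⟩)⁻¹ *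
      (Abelianization.of ⟨of 1, c_mem⟩)⁻¹]

/-- the inverse map `F^ab → S^ab` -/
noncomputable def back : Abelianization (FreeGroup (Fin 3)) →* Abelianization S :=
  Abelianization.lift (FreeGroup.lift gens)

theorem W_eq : (mk W : FreeGroup (Fin 3)) = of 2 * of 2 * of 0 * (of 2)⁻¹ * of 1 := by
  simp only [FreeGroup.of, mul_mk, inv_mk]
  rfl

theorem back_of (i : Fin 3) : back (Abelianization.of (of i)) = gens i := by
  simp [back]

theorem back_W : back (Abelianization.of (mk W)) = Abelianization.of ⟨mk W, w_mem⟩ := by
  have h0 : back (Abelianization.of (mk W)) =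
      back (Abelianization.of (of 2 * of 2 * of 0 * (of 2)⁻¹ * of 1)) := by rw [W_eq]
  rw [h0, map_mul, map_mul, map_mul, map_mul, map_inv, map_mul, map_mul, map_mul, map_mul,
    map_inv, back_of, back_of, back_of]
  simp only [gens, Matrix.cons_val_zero, Matrix.cons_val_one, Matrix.cons_val]
  generalize (Abelianization.of (⟨mk W, w_mem⟩ : S)) = x
  generalize (Abelianization.of (⟨of 0, b_mem⟩ : S)) = y
  generalize (Abelianization.of (⟨of 1, c_mem⟩ : S)) = z
  have : x * y⁻¹ * z⁻¹ * (x * y⁻¹ * z⁻¹) * y * (x * y⁻¹ * z⁻¹)⁻¹ * z = x := by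
    calc _ = (x * y⁻¹ * z⁻¹) * ((x * y⁻¹ * z⁻¹) * (x * y⁻¹ * z⁻¹)⁻¹) * (y * z) := by
          simp only [mul_comm, mul_left_comm, mul_assoc]
      _ = x := by
          rw [mul_inv_cancel, mul_one]
          calc _ = x * (y⁻¹ * y) * (z⁻¹ * z) := by simp only [mul_comm, mul_left_comm, mul_assoc]
            _ = x := by simp
  exact this

theorem back_map (x : Abelianization S) : back (Abelianization.map S.subtype x) = x := by
  have : (back.comp (Abelianization.map S.subtype)) = MonoidHom.id _ := by
    apply Abelianization.hom_ext
    ext1 s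
    obtain ⟨s, hs⟩ := s
    show back (Abelianization.of s) = Abelianization.of ⟨s, hs⟩
    refine Subgroup.closure_induction (p := fun s hs => back (Abelianization.of s) =
      Abelianization.of (⟨s, hs⟩ : S)) ?_ ?_ ?_ ?_ hs
    · intro x hx
      simp only [Set.mem_insert_iff, Set.mem_singleton_iff] at hx
      rcases hx with rfl | rfl | rfl
      · rw [back_of]; rfl
      · rw [back_of]; rfl
      · rw [back_W]
    · rw [map_one, map_one]
      exact (map_one (Abelianization.of (G := S))).symm
    · intro x y hx hy h1 h2
      rw [map_mul, map_mul, h1, h2]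
      exact (map_mul (Abelianization.of (G := S)) _ _).symm
    · intro x hx h1
      rw [map_inv, map_inv, h1]
      exact (map_inv (Abelianization.of (G := S)) _).symm
  exact DFunLike.congr_fun this x

theorem map_back (x : Abelianization (FreeGroup (Fin 3))) :
    Abelianization.map S.subtype (back x) = x := by
  have : ((Abelianization.map S.subtype).comp back) = MonoidHom.id _ := by
    apply Abelianization.hom_ext
    apply FreeGroup.ext_hom
    intro i
    show Abelianization.map S.subtype (back (Abelianization.of (of i))) = Abelianization.of (of i)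
    rw [back_of]
    fin_cases i
    · rfl
    · rfl
    · show Abelianization.map S.subtype (Abelianization.of ⟨mk W, w_mem⟩ *
        (Abelianization.of ⟨of 0, b_mem⟩)⁻¹ * (Abelianization.of ⟨of 1, c_mem⟩)⁻¹) = _
      rw [map_mul, map_mul, map_inv, map_inv, Abelianization.map_of, Abelianization.map_of,
        Abelianization.map_of]
      show Abelianization.of (mk W) * (Abelianization.of (of 0))⁻¹ * (Abelianization.of (of 1))⁻¹ =
        Abelianization.of (of 2)
      rw [W_eq, map_mul, map_mul, map_mul, map_mul, map_inv]
      generalize (Abelianization.of (of 0 : FreeGroup (Fin 3))) = x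
      generalize (Abelianization.of (of 1 : FreeGroup (Fin 3))) = y
      generalize (Abelianization.of (of 2 : FreeGroup (Fin 3))) = z
      calc _ = z * (z * z⁻¹) * (x * x⁻¹) * (y * y⁻¹) := by
            simp only [mul_comm, mul_left_comm, mul_assoc]
        _ = z := by simp
  exact DFunLike.congr_fun this x

theorem bij (p : ℕ) : Function.Bijective (LinearMap.rTensor (ZMod p)
    (AddMonoidHom.toIntLinearMap (MonoidHom.toAdditive (Abelianization.map S.subtype)))) :=
  bij_of_inverse _ back back_map map_back (ZMod p)

/-! ### the retraction `S → F(b, c)` killing `w`, through an action of `F(b, c, t)` -/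

/-- the set acted on: three copies of `F(b, c)` -/
abbrev X : Type := FreeGroup (Fin 2) × Fin 3

/-- action of `b` -/
def permB : Equiv.Perm X where
  toFun p := if p.2 = 0 then (of 0 * p.1, 0) else if p.2 = 1 then (of 1 * p.1, 2)
    else ((of 1)⁻¹ * p.1, 1)
  invFun p := if p.2 = 0 then ((of 0)⁻¹ * p.1, 0) else if p.2 = 1 then (of 1 * p.1, 2)
    else ((of 1)⁻¹ * p.1, 1)
  left_inv := by
    rintro ⟨y, i⟩
    fin_cases i <;> simp
  right_inv := by
    rintro ⟨y, i⟩
    fin_cases i <;> simp

/-- action of `c` -/
def permC : Equiv.Perm X where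
  toFun p := if p.2 = 0 then (of 1 * p.1, 0) else p
  invFun p := if p.2 = 0 then ((of 1)⁻¹ * p.1, 0) else p
  left_inv := by
    rintro ⟨y, i⟩
    fin_cases i <;> simp
  right_inv := by
    rintro ⟨y, i⟩
    fin_cases i <;> simp

/-- action of `t` : `1 ↦ 2 ↦ 0 ↦ 1` on the second coordinate -/
def permT : Equiv.Perm X where
  toFun p := (p.1, p.2 + 1)
  invFun p := (p.1, p.2 - 1)
  left_inv := by
    rintro ⟨y, i⟩
    simp
  right_inv := by
    rintro ⟨y, i⟩
    simp

/-- the action -/
def Φ : FreeGroup (Fin 3) →* Equiv.Perm X := FreeGroup.lift ![permB, permC, permT]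

/-- `s` acts on the first copy as the left multiplication by `h` -/
def Rel (s : FreeGroup (Fin 3)) (h : FreeGroup (Fin 2)) : Prop :=
  ∀ y, Φ s (y, 0) = (h * y, 0)

theorem Rel.one : Rel 1 1 := by
  intro y; simp

theorem Rel.mul {s s' : FreeGroup (Fin 3)} {h h' : FreeGroup (Fin 2)} (H : Rel s h)
    (H' : Rel s' h') : Rel (s * s') (h * h') := by
  intro y
  rw [map_mul, Equiv.Perm.mul_apply, H', H, mul_assoc]

theorem Rel.inv {s : FreeGroup (Fin 3)} {h : FreeGroup (Fin 2)} (H : Rel s h) :
    Rel s⁻¹ h⁻¹ := by
  intro y
  rw [map_inv, Equiv.Perm.inv_eq_iff_eq, H, mul_inv_cancel_left]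

theorem Rel.unique {s : FreeGroup (Fin 3)} {h h' : FreeGroup (Fin 2)} (H : Rel s h)
    (H' : Rel s h') : h = h' := by
  have := (H 1).symm.trans (H' 1)
  simpa using this

theorem rel_b : Rel (of 0) (of 0) := by
  intro y
  simp [Φ, permB]

theorem rel_c : Rel (of 1) (of 1) := by
  intro y
  simp [Φ, permC]

theorem rel_w : Rel (mk W) 1 := by
  intro y
  rw [W_eq]
  simp only [map_mul, map_inv, Φ, FreeGroup.lift_apply_of, Equiv.Perm.mul_apply,
    Matrix.cons_val_zero, Matrix.cons_val_one, Matrix.cons_val]
  have h1 : permC (y, 0) = (of 1 * y, 0) := by simp [permC]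
  have h2 : permT⁻¹ (of 1 * y, (0 : Fin 3)) = (of 1 * y, 2) := by
    rw [Equiv.Perm.inv_eq_iff_eq]
    simp [permT]
  have h3 : permB (of 1 * y, (2 : Fin 3)) = (y, 1) := by
    simp [permB]
  have h4 : permT (y, (1 : Fin 3)) = (y, 2) := by
    simp [permT]
  have h5 : permT (y, (2 : Fin 3)) = (y, 0) := by
    simp [permT]
  rw [h1, h2, h3, h4, h5, one_mul]

theorem exists_rel {s : FreeGroup (Fin 3)} (hs : s ∈ S) : ∃ h, Rel s h := by
  refine Subgroup.closure_induction (p := fun s _ => ∃ h, Rel s h) ?_ ?_ ?_ ?_ hs
  · intro x hx
    simp only [Set.mem_insert_iff, Set.mem_singleton_iff] at hx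
    rcases hx with rfl | rfl | rfl
    · exact ⟨_, rel_b⟩
    · exact ⟨_, rel_c⟩
    · exact ⟨_, rel_w⟩
  · exact ⟨_, Rel.one⟩
  · rintro x y _ _ ⟨h, H⟩ ⟨h', H'⟩
    exact ⟨_, H.mul H'⟩
  · rintro x _ ⟨h, H⟩
    exact ⟨_, H.inv⟩

theorem rel_letter (x : Fin 2 × Bool) : Rel (mk (emb [x])) (mk [x]) := by
  obtain ⟨a, b⟩ := x
  have key : Rel (mk [(a.castSucc, true)]) (mk [(a, true)]) := by
    fin_cases a
    · exact rel_b
    · exact rel_c
  cases b with
  | true => exact key
  | false =>
    have h1 : (mk [(a.castSucc, false)] : FreeGroup (Fin 3)) = (mk [(a.castSucc, true)])⁻¹ := by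
      rw [inv_mk]; rfl
    have h2 : (mk [(a, false)] : FreeGroup (Fin 2)) = (mk [(a, true)])⁻¹ := by
      rw [inv_mk]; rfl
    show Rel (mk [(a.castSucc, false)]) (mk [(a, false)])
    rw [h1, h2]
    exact key.inv

theorem rel_emb (L : List (Fin 2 × Bool)) : Rel (mk (emb L)) (mk L) := by
  induction L with
  | nil => exact Rel.one
  | cons x L ih =>
    have h1 : (mk (emb (x :: L)) : FreeGroup (Fin 3)) = mk (emb [x]) * mk (emb L) := by
      rw [mul_mk]; rfl
    rw [h1, mk_cons]
    exact (rel_letter x).mul ih

theorem rel_item (o : Option (Fin 2 × Bool) × Bool) : Rel (mk (item o)) (mk (optW o.1)) := by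
  obtain ⟨o, s⟩ := o
  cases o with
  | some x => exact rel_letter x
  | none =>
    cases s with
    | true => exact rel_w
    | false =>
      have : (mk (invRev W) : FreeGroup (Fin 3)) = (mk W)⁻¹ := by rw [inv_mk]
      show Rel (mk (invRev W)) 1
      rw [this, ← inv_one]
      exact rel_w.inv

/-- from a product of `S`-conjugates to a product of conjugates in `F(b, c)` -/
theorem transfer (T : List (FreeGroup (Fin 3) × (Option (Fin 2 × Bool) × Bool)))
    (hT : ∀ p ∈ T, p.1 ∈ S) :
    ∃ T' : List (FreeGroup (Fin 2) × Option (Fin 2 × Bool)),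
      T'.map Prod.snd = T.map (fun p => p.2.1) ∧
      Rel (T.map (fun p => p.1 * mk (item p.2) * p.1⁻¹)).prod
        (T'.map (fun p => p.1 * mk (optW p.2) * p.1⁻¹)).prod := by
  induction T with
  | nil => exact ⟨[], rfl, Rel.one⟩
  | cons p T ih =>
    obtain ⟨T', h1, h2⟩ := ih (fun q hq => hT q (List.mem_cons_of_mem _ hq))
    obtain ⟨h, H⟩ := exists_rel (hT p List.mem_cons_self)
    refine ⟨(h, p.2.1) :: T', ?_, ?_⟩
    · simp [h1]
    · rw [List.map_cons, List.prod_cons, List.map_cons, List.prod_cons]
      exact ((H.mul (rel_item p.2)).mul H.inv).mul h2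

/-- `u⁻¹` is not a product of `S`-conjugates of the 22 elements -/
theorem no_conj (T : List (FreeGroup (Fin 3) × (Option (Fin 2 × Bool) × Bool)))
    (hT : ∀ p ∈ T, p.1 ∈ S) (hd : T.map Prod.snd = data.map Prod.fst)
    (he : mk (emb aw) = (T.map (fun p => p.1 * mk (item p.2) * p.1⁻¹)).prod) : False := by
  obtain ⟨T', h1, h2⟩ := transfer T hT
  rw [← he] at h2
  have h3 := Rel.unique (rel_emb aw) h2
  have h4 := deletion T' h3
  have h5 : (T'.map (fun p => optM p.2)).sum = (P0 : Multiset (Fin 2 × Bool)) := by
    have e1 : T'.map (fun p => optM p.2) = (T'.map Prod.snd).map optM := by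
      rw [List.map_map]; rfl
    have e2 : T.map (fun p => p.2.1) = (T.map Prod.snd).map Prod.fst := by
      rw [List.map_map]; rfl
    rw [e1, h1, e2, hd]
    decide +kernel
  rw [h5] at h4
  exact not_good h4

end Pool.Agent.Helper158.Stall
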